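import Mathlib
import Pool.Agent.W546.N4.Defs

/-!
Project N4 (helper546): the `t`-integral of the second order term.
-/

set_option autoImplicit false
open MeasureTheory Set Filter Topology
open scoped ENNReal

namespace Pool.Agent.W701.N4

noncomputable def ph (b t : ℝ) : ℝ := Real.sqrt ((t ^ 2 + b) ^ 3) - t ^ 3 - 3 / 2 * b * t

theorem ph_nonneg {b t : ℝ} (hb : 0 ≤ b) (_ht : 0 ≤ t) : 0 ≤ ph b t := by
  unfold ph
  have h : t ^ 3 + 3 / 2 * b * t ≤ Real.sqrt ((t ^ 2 + b) ^ 3) := by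
    apply Real.le_sqrt_of_sq_le
    nlinarith [mul_nonneg hb hb, mul_nonneg (mul_nonneg hb hb) hb, mul_nonneg (mul_nonneg hb hb) (sq_nonneg t),
      sq_nonneg t]
  linarith

theorem ph_le {b t : ℝ} (hb : 0 ≤ b) (ht : 0 < t) : ph b t ≤ 3 / 8 * b ^ 2 / t := by
  unfold ph
  have h : Real.sqrt ((t ^ 2 + b) ^ 3) ≤ t ^ 3 + 3 / 2 * b * t + 3 / 8 * b ^ 2 / t := by
    apply Real.sqrt_le_iff.mpr
    refine ⟨by positivity, ?_⟩
    have e : (t ^ 3 + 3 / 2 * b * t + 3 / 8 * b ^ 2 / t) ^ 2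
        = (t ^ 2 + b) ^ 3 + 1 / 8 * b ^ 3 + 9 / 64 * b ^ 4 / t ^ 2 := by
      field_simp
      ring
    rw [e]
    have h1 : 0 ≤ 1 / 8 * b ^ 3 := by positivity
    have h2 : 0 ≤ 9 / 64 * b ^ 4 / t ^ 2 := by positivity
    linarith
  linarith

theorem sqrt_cube {x : ℝ} (hx : 0 ≤ x) : Real.sqrt (x ^ 3) = x * Real.sqrt x := by
  have : x ^ 3 = x ^ 2 * x := by ring
  rw [this, Real.sqrt_mul (sq_nonneg x), Real.sqrt_sq hx]

noncomputable def A (b t : ℝ) : ℝ :=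
  t * (t ^ 2 + b) * Real.sqrt (t ^ 2 + b) / 4 + 3 / 8 * b * t * Real.sqrt (t ^ 2 + b)
    + 3 / 8 * b ^ 2 * Real.log (t + Real.sqrt (t ^ 2 + b)) - t ^ 4 / 4 - 3 / 4 * b * t ^ 2

theorem hasDerivAt_A {b t : ℝ} (hb : 0 < b) (ht : 0 ≤ t) : HasDerivAt (A b) (ph b t) t := by
  have hp : 0 < t ^ 2 + b := by positivity
  set s := Real.sqrt (t ^ 2 + b) with hs
  have hs0 : 0 < s := Real.sqrt_pos.mpr hp
  have hss : s ^ 2 = t ^ 2 + b := Real.sq_sqrt hp.le
  have h2 : HasDerivAt (fun t : ℝ => t ^ 2 + b) (2 * t) t := by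
    simpa using (hasDerivAt_pow 2 t).add_const b
  have hq : HasDerivAt (fun t : ℝ => Real.sqrt (t ^ 2 + b)) (t / s) t := by
    refine (h2.sqrt hp.ne').congr_deriv ?_
    rw [← hs]; field_simp
  have hl : HasDerivAt (fun t : ℝ => Real.log (t + Real.sqrt (t ^ 2 + b))) ((1 + t / s) / (t + s)) t := by
    have h3 : HasDerivAt (fun t : ℝ => t + Real.sqrt (t ^ 2 + b)) (1 + t / s) t := (hasDerivAt_id t).add hq
    exact (h3.log (by rw [← hs]; positivity)).congr_deriv (by rw [← hs])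
  have h1 : HasDerivAt (fun t : ℝ => t * (t ^ 2 + b) * Real.sqrt (t ^ 2 + b) / 4)
      (((1 * (t ^ 2 + b) + t * (2 * t)) * s + t * (t ^ 2 + b) * (t / s)) / 4) t :=
    (((hasDerivAt_id t).mul h2).mul hq).div_const 4
  have h4 : HasDerivAt (fun t : ℝ => 3 / 8 * b * t * Real.sqrt (t ^ 2 + b))
      ((3 / 8 * b) * s + 3 / 8 * b * t * (t / s)) t := by
    have h5 : HasDerivAt (fun t : ℝ => 3 / 8 * b * t) (3 / 8 * b) t := by
      simpa using (hasDerivAt_id t).const_mul (3 / 8 * b)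
    exact h5.mul hq
  have h6 : HasDerivAt (fun t : ℝ => t ^ 4 / 4) (t ^ 3) t := by
    exact ((hasDerivAt_pow 4 t).div_const 4).congr_deriv (by norm_num)
  have h7 : HasDerivAt (fun t : ℝ => 3 / 4 * b * t ^ 2) (3 / 2 * b * t) t := by
    exact ((hasDerivAt_pow 2 t).const_mul (3 / 4 * b)).congr_deriv (by norm_num; ring)
  have := (((h1.add h4).add (hl.const_mul (3 / 8 * b ^ 2))).sub h6).sub h7
  refine HasDerivAt.congr_deriv (f := A b) this ?_
  unfold ph
  rw [sqrt_cube hp.le, ← hs]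
  have hts : t + s ≠ 0 := by positivity
  have e1 : (1 + t / s) / (t + s) = 1 / s := by field_simp; ring
  rw [e1]
  have e2 : 1 / s = s / (t ^ 2 + b) := by rw [← hss]; field_simp
  have e3 : t / s = t * s / (t ^ 2 + b) := by rw [← hss]; field_simp
  rw [e2, e3]
  field_simp
  ring

theorem cont_ph (b : ℝ) : Continuous (ph b) := by
  unfold ph; fun_prop

theorem L1 {b : ℝ} (hb : 0 < b) :
    ∫⁻ t in Ioc (0 : ℝ) (1 / 2), ENNReal.ofReal (ph b t) = ENNReal.ofReal (A b (1 / 2) - A b 0) := by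
  have h1 : ∫ t in (0 : ℝ)..(1 / 2), ph b t = A b (1 / 2) - A b 0 := by
    apply intervalIntegral.integral_eq_sub_of_hasDerivAt
    · intro t ht
      rw [uIcc_of_le (by norm_num)] at ht
      exact hasDerivAt_A hb ht.1
    · exact (cont_ph b).intervalIntegrable _ _
  rw [← h1, intervalIntegral.integral_of_le (by norm_num)]
  rw [ofReal_integral_eq_lintegral_ofReal]
  · exact ((cont_ph b).intervalIntegrable 0 (1 / 2)).1
  · refine (ae_restrict_iff' measurableSet_Ioc).mpr (Filter.Eventually.of_forall fun t ht => ?_)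
    exact ph_nonneg hb.le ht.1.le

noncomputable def gg (t : ℝ) : ℝ := -(Real.exp (-(t ^ 2 / 2)) * Real.log (1 + 2 / t ^ 2) / 2)
noncomputable def gg' (t : ℝ) : ℝ :=
  Real.exp (-(t ^ 2 / 2)) * (t * Real.log (1 + 2 / t ^ 2) / 2 + 2 / (t * (t ^ 2 + 2)))

theorem hasDerivAt_exp (t : ℝ) : HasDerivAt (fun t : ℝ => Real.exp (-(t ^ 2 / 2)))
    (Real.exp (-(t ^ 2 / 2)) * (-t)) t := by
  have h : HasDerivAt (fun t : ℝ => -(t ^ 2 / 2)) (-t) t := by
    exact ((hasDerivAt_pow 2 t).div_const 2).neg.congr_deriv (by norm_num)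
  exact h.exp

theorem hasDerivAt_gg {t : ℝ} (ht : 0 < t) : HasDerivAt gg (gg' t) t := by
  have h1 : HasDerivAt (fun t : ℝ => 1 + 2 / t ^ 2) (-(4 / t ^ 3)) t := by
    have h2 : HasDerivAt (fun t : ℝ => t ^ 2) (2 * t) t := by simpa using hasDerivAt_pow 2 t
    refine (((hasDerivAt_const t (2 : ℝ)).div h2 (by positivity)).const_add 1).congr_deriv ?_
    field_simp
    ring
  have hp : 0 < 1 + 2 / t ^ 2 := by positivity
  have h3 := h1.log hp.ne'
  have h4 := (((hasDerivAt_exp t).mul h3).div_const 2).neg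
  refine HasDerivAt.congr_deriv (f := gg) h4 ?_
  unfold gg'
  field_simp
  ring

theorem gg'_ge {t : ℝ} (ht : 0 < t) : Real.exp (-(t ^ 2 / 2)) / t ≤ gg' t := by
  unfold gg'
  have h1 := Real.one_sub_inv_le_log_of_pos (show 0 < 1 + 2 / t ^ 2 by positivity)
  have e1 : 1 - (1 + 2 / t ^ 2)⁻¹ = 2 / (t ^ 2 + 2) := by field_simp; ring
  rw [e1] at h1
  rw [div_eq_mul_inv]
  apply mul_le_mul_of_nonneg_left _ (Real.exp_pos _).le
  have e2 : t⁻¹ = t * (2 / (t ^ 2 + 2)) / 2 + 2 / (t * (t ^ 2 + 2)) := by field_simp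
  rw [e2]
  gcongr

theorem tendsto_exp : Tendsto (fun t : ℝ => Real.exp (-(t ^ 2 / 2))) atTop (𝓝 0) := by
  apply Real.tendsto_exp_neg_atTop_nhds_zero.comp
  exact (tendsto_pow_atTop (by norm_num)).atTop_div_const (by norm_num)

theorem tendsto_gg : Tendsto gg atTop (𝓝 0) := by
  unfold gg
  have h1 : Tendsto (fun t : ℝ => Real.log (1 + 2 / t ^ 2)) atTop (𝓝 0) := by
    have h2 : Tendsto (fun t : ℝ => 1 + 2 / t ^ 2) atTop (𝓝 (1 + 0)) :=
      ((tendsto_pow_atTop (by norm_num)).const_div_atTop 2).const_add 1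
    rw [add_zero] at h2
    have h3 := (Real.continuousAt_log (one_ne_zero)).tendsto.comp h2
    rw [Real.log_one] at h3
    exact h3
  have h2 := ((tendsto_exp.mul h1).div_const 2).neg
  simpa using h2

theorem L2 : ∫⁻ t in Ioi (1 / 2 : ℝ), ENNReal.ofReal (Real.exp (-(t ^ 2 / 2)) / t)
    ≤ ENNReal.ofReal (Real.exp (-(1 / 8)) * Real.log 3) := by
  have hd : ∀ t ∈ Ici (1 / 2 : ℝ), HasDerivAt gg (gg' t) t := fun t ht =>
    hasDerivAt_gg (lt_of_lt_of_le (by norm_num) ht)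
  have hpos : ∀ t ∈ Ioi (1 / 2 : ℝ), 0 ≤ gg' t := by
    intro t ht
    have ht0 : 0 < t := lt_trans (by norm_num) ht
    exact le_trans (by positivity) (gg'_ge ht0)
  have h1 := integral_Ioi_of_hasDerivAt_of_nonneg' hd hpos tendsto_gg
  have hint := integrableOn_Ioi_deriv_of_nonneg' hd hpos tendsto_gg
  have e : 0 - gg (1 / 2) = Real.exp (-(1 / 8)) * Real.log 3 := by
    unfold gg
    have e1 : (1 : ℝ) + 2 / (1 / 2) ^ 2 = 3 ^ 2 := by norm_num
    rw [e1, Real.log_pow]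
    norm_num
    ring
  rw [e] at h1
  rw [← h1, ofReal_integral_eq_lintegral_ofReal hint]
  · refine setLIntegral_mono' measurableSet_Ioi fun t ht => ?_
    exact ENNReal.ofReal_le_ofReal (gg'_ge (lt_trans (by norm_num) ht))
  · exact (ae_restrict_iff' measurableSet_Ioi).mpr (Filter.Eventually.of_forall hpos)

theorem L3 : ∫⁻ t in Ioi (0 : ℝ), ENNReal.ofReal (t * Real.exp (-(t ^ 2 / 2))) = 1 := by
  have hd : ∀ t ∈ Ici (0 : ℝ), HasDerivAt (fun t : ℝ => -Real.exp (-(t ^ 2 / 2)))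
      (t * Real.exp (-(t ^ 2 / 2))) t := by
    intro t _
    exact (hasDerivAt_exp t).neg.congr_deriv (by ring)
  have hpos : ∀ t ∈ Ioi (0 : ℝ), 0 ≤ t * Real.exp (-(t ^ 2 / 2)) := by
    intro t ht
    have ht0 : 0 < t := ht
    positivity
  have ht : Tendsto (fun t : ℝ => -Real.exp (-(t ^ 2 / 2))) atTop (𝓝 0) := by
    simpa using tendsto_exp.neg
  have h1 := integral_Ioi_of_hasDerivAt_of_nonneg' hd hpos ht
  have hint := integrableOn_Ioi_deriv_of_nonneg' hd hpos ht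
  rw [← ofReal_integral_eq_lintegral_ofReal hint
    ((ae_restrict_iff' measurableSet_Ioi).mpr (Filter.Eventually.of_forall hpos)), h1]
  norm_num

theorem even_int (F : ℝ → ℝ≥0∞) : ∫⁻ t : ℝ, F |t| = 2 * ∫⁻ t in Ioi (0 : ℝ), F t := by
  rw [← lintegral_add_compl (fun t : ℝ => F |t|) (measurableSet_Ioi (a := (0 : ℝ))), compl_Ioi]
  have h1 : ∫⁻ t in Ioi (0 : ℝ), F |t| = ∫⁻ t in Ioi (0 : ℝ), F t := by
    refine setLIntegral_congr_fun measurableSet_Ioi fun t ht => ?_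
    rw [abs_of_pos ht]
  have h2 : ∫⁻ t in Iic (0 : ℝ), F |t| = ∫⁻ t in Ioi (0 : ℝ), F t := by
    have h3 := (Measure.measurePreserving_neg (volume : Measure ℝ)).setLIntegral_comp_preimage_emb
      (MeasurableEquiv.neg ℝ).measurableEmbedding F (Ici 0)
    have e : (Neg.neg ⁻¹' Ici (0 : ℝ)) = Iic 0 := by ext x; simp
    rw [e] at h3
    rw [setLIntegral_congr (Ioi_ae_eq_Ici (a := (0 : ℝ))), ← h3]
    refine setLIntegral_congr_fun measurableSet_Iic fun t ht => ?_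
    rw [abs_of_nonpos ht]
  rw [h1, h2, two_mul]

/-- the numerical inequality -/
theorem num {b : ℝ} (hb : 0 < b) :
    A b (1 / 2) - A b 0 + 3 / 8 * b ^ 2 * (Real.exp (-(1 / 8)) * Real.log 3) ≤ 203 / 200 * b ^ 2 + 9 / 800 * b := by
  set r := Real.sqrt (1 + 4 * b) with hr
  have hr2 : r ^ 2 = 1 + 4 * b := Real.sq_sqrt (by positivity)
  have hr1 : 1 < r := by
    rw [hr]
    apply Real.lt_sqrt_of_sq_lt
    linarith
  have hbr : b = (r ^ 2 - 1) / 4 := by linarith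
  have hs : Real.sqrt ((1 / 2) ^ 2 + b) = r / 2 := by
    have : (1 / 2 : ℝ) ^ 2 + b = (r / 2) ^ 2 := by rw [hbr]; ring
    rw [this, Real.sqrt_sq (by linarith)]
  have hA0 : A b 0 = 3 / 8 * b ^ 2 * (Real.log b / 2) := by
    unfold A
    rw [← Real.log_sqrt hb.le]
    simp
  have hA1 : A b (1 / 2) = r ^ 3 / 64 + 3 / 32 * b * r + 3 / 8 * b ^ 2 * Real.log ((1 + r) / 2)
      - 1 / 64 - 3 / 16 * b := by
    unfold A
    rw [hs]
    have e1 : (1 : ℝ) / 2 + r / 2 = (1 + r) / 2 := by ring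
    have e2 : (1 / 2 : ℝ) ^ 2 + b = (r / 2) ^ 2 := by rw [hbr]; ring
    rw [e1, e2]
    ring
  have hlog : Real.log ((1 + r) / 2) - Real.log b / 2 = Real.log ((r + 1) / (r - 1)) / 2 := by
    have h1 : (0 : ℝ) < 1 + r := by linarith
    have h2 : (0 : ℝ) < r - 1 := by linarith
    have h3 : (0 : ℝ) < r + 1 := by linarith
    have hb4 : b = (r - 1) * (r + 1) / 2 ^ 2 := by rw [hbr]; ring
    rw [hb4, Real.log_div h1.ne' (by norm_num), Real.log_div (by positivity) (by norm_num), Real.log_mul h2.ne' h3.ne',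
      Real.log_pow, Real.log_div h3.ne' h2.ne', add_comm 1 r]
    push_cast
    ring
  have hr0 : (0 : ℝ) < r - 1 := by linarith
  have hL : Real.log ((r + 1) / (r - 1)) ≤ 2 + (r + 1) / (r - 1) / 20 := by
    have hx : 0 < (r + 1) / (r - 1) := by positivity
    set x := (r + 1) / (r - 1) with hxdef
    have h1 : Real.log x = 3 + Real.log (x / Real.exp 3) := by
      rw [Real.log_div hx.ne' (Real.exp_pos 3).ne', Real.log_exp]; ring
    have h2 : Real.log (x / Real.exp 3) ≤ x / Real.exp 3 - 1 :=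
      Real.log_le_sub_one_of_pos (by positivity)
    have h3 : (20 : ℝ) ≤ Real.exp 3 := by
      have h4 : Real.exp 3 = Real.exp 1 ^ 3 := by rw [← Real.exp_nat_mul]; norm_num
      rw [h4]
      have h5 := Real.exp_one_gt_d9
      have h6 : (2.718 : ℝ) ≤ Real.exp 1 := by linarith
      calc (20 : ℝ) ≤ 2.718 ^ 3 := by norm_num
        _ ≤ Real.exp 1 ^ 3 := by gcongr
    have h4 : x / Real.exp 3 ≤ x / 20 := by gcongr
    rw [h1]
    linarith
  have hE : Real.exp (-(1 / 8)) * Real.log 3 ≤ 97 / 100 := by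
    have h1 : Real.log 3 ≤ 1.0987 := by linarith [Real.log_three_lt_d9]
    have h2 : Real.exp (-(1 / 8)) ≤ 0.8826 := by
      rw [Real.exp_neg]
      have h3 : (1.1331 : ℝ) ≤ Real.exp (1 / 8) := by
        have := Real.sum_le_exp_of_nonneg (show (0 : ℝ) ≤ 1 / 8 by norm_num) 4
        refine le_trans ?_ this
        norm_num [Finset.sum_range_succ, Nat.factorial]
      calc (Real.exp (1 / 8))⁻¹ ≤ (1.1331 : ℝ)⁻¹ := by gcongr
        _ ≤ 0.8826 := by norm_num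
    have h0 : 0 ≤ Real.log 3 := Real.log_nonneg (by norm_num)
    calc Real.exp (-(1 / 8)) * Real.log 3 ≤ 0.8826 * 1.0987 := by gcongr
      _ ≤ 97 / 100 := by norm_num
  have key : A b (1 / 2) - A b 0 = r ^ 3 / 64 + 3 / 32 * b * r - 1 / 64 - 3 / 16 * b
      + 3 / 16 * b ^ 2 * Real.log ((r + 1) / (r - 1)) := by
    rw [hA0, hA1]
    linear_combination (3 / 8 * b ^ 2) * hlog
  rw [key]
  have hb2 : 0 ≤ b ^ 2 := sq_nonneg b
  have k1 : 3 / 16 * b ^ 2 * Real.log ((r + 1) / (r - 1)) ≤ 3 / 16 * b ^ 2 * (2 + (r + 1) / (r - 1) / 20) := by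
    gcongr
  have k2 : 3 / 8 * b ^ 2 * (Real.exp (-(1 / 8)) * Real.log 3) ≤ 3 / 8 * b ^ 2 * (97 / 100) := by gcongr
  have k3 : 3 / 16 * b ^ 2 * (2 + (r + 1) / (r - 1) / 20) = 3 / 8 * b ^ 2 + 3 / 320 * ((r - 1) * (r + 1) ^ 3 / 16) := by
    rw [hbr]
    field_simp
    ring
  rw [k3] at k1
  have k4 : r ^ 3 / 64 + 3 / 32 * b * r - 1 / 64 - 3 / 16 * b
      + (3 / 8 * b ^ 2 + 3 / 320 * ((r - 1) * (r + 1) ^ 3 / 16)) + 3 / 8 * b ^ 2 * (97 / 100)
      ≤ 203 / 200 * b ^ 2 + 9 / 800 * b := by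
    rw [hbr]
    obtain ⟨p, hp⟩ : ∃ p, p = r - 1 := ⟨_, rfl⟩
    have hp0 : 0 < p := by rw [hp]; exact hr0
    have hr' : r = p + 1 := by rw [hp]; ring
    rw [hr']
    have : 0 ≤ p * ((61 / 1000 - 38 / 100 * p + 166 / 100 * p ^ 2) + 105 / 100 * p ^ 3) := by
      have : 0 ≤ 61 / 1000 - 38 / 100 * p + 166 / 100 * p ^ 2 := by nlinarith [sq_nonneg (p - 38 / 332)]
      positivity
    nlinarith [hp0, mul_pos hp0 hp0, pow_pos hp0 3, pow_pos hp0 4]
  linarith

open Pool.Agent.W546.N4 in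
theorem PHI : St4_PHI := by
  intro u b hu hb
  have hsu : 0 < Real.sqrt u := Real.sqrt_pos.mpr hu
  have hsu2 : Real.sqrt u ^ 2 = u := Real.sq_sqrt hu.le
  set f : ℝ → ℝ := fun t => Real.sqrt (t ^ 2 + u) * ph b t * Real.exp (-(t ^ 2 / 2)) with hf
  have e1 : ∫⁻ t : ℝ, ENNReal.ofReal (Real.sqrt (t ^ 2 + u) *
      (Real.sqrt ((t ^ 2 + b) ^ 3) - |t| ^ 3 - 3 / 2 * b * |t|) * Pool.Agent.Helper82.OS.gt t)
      = 2 * ∫⁻ t in Ioi (0 : ℝ), ENNReal.ofReal (f t) := by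
    rw [← even_int (fun t => ENNReal.ofReal (f t))]
    refine lintegral_congr fun t => ?_
    simp only [hf, ph, Pool.Agent.Helper82.OS.gt, sq_abs]
  rw [e1]
  rcases hb.eq_or_lt with hb0 | hb0
  · -- `b = 0`
    have : ∀ t ∈ Ioi (0 : ℝ), ENNReal.ofReal (f t) = 0 := by
      intro t ht
      have ht0 : 0 < t := ht
      have : ph b t = 0 := by
        unfold ph
        rw [← hb0, add_zero, sqrt_cube (sq_nonneg t), Real.sqrt_sq ht0.le]
        ring
      simp [hf, this]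
    rw [setLIntegral_congr_fun measurableSet_Ioi this]
    simp
  -- pointwise bounds
  have hsq : ∀ t : ℝ, Real.sqrt (t ^ 2 + u) ≤ Real.sqrt u + t ^ 2 / (2 * Real.sqrt u) := by
    intro t
    apply Real.sqrt_le_iff.mpr
    refine ⟨by positivity, ?_⟩
    have e : (Real.sqrt u + t ^ 2 / (2 * Real.sqrt u)) ^ 2
        = Real.sqrt u ^ 2 + t ^ 2 + (t ^ 2 / (2 * Real.sqrt u)) ^ 2 := by
      field_simp
      ring
    rw [e, hsu2]
    have : 0 ≤ (t ^ 2 / (2 * Real.sqrt u)) ^ 2 := sq_nonneg _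
    linarith
  have p0 : ∀ t : ℝ, 0 < t → f t ≤ Real.sqrt u * (ph b t * Real.exp (-(t ^ 2 / 2)))
      + (3 / 16 * b ^ 2 / Real.sqrt u) * (t * Real.exp (-(t ^ 2 / 2))) := by
    intro t ht
    have hE := Real.exp_pos (-(t ^ 2 / 2))
    have h1 : f t ≤ (Real.sqrt u + t ^ 2 / (2 * Real.sqrt u)) * ph b t * Real.exp (-(t ^ 2 / 2)) := by
      simp only [hf]
      have := hsq t
      have := ph_nonneg hb ht.le
      gcongr
    have h2 : t ^ 2 * ph b t ≤ 3 / 8 * b ^ 2 * t := by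
      calc t ^ 2 * ph b t ≤ t ^ 2 * (3 / 8 * b ^ 2 / t) := by
            have := ph_le hb ht
            gcongr
        _ = 3 / 8 * b ^ 2 * t := by field_simp
    have h3 : (t ^ 2 / (2 * Real.sqrt u)) * ph b t * Real.exp (-(t ^ 2 / 2))
        ≤ (3 / 16 * b ^ 2 / Real.sqrt u) * (t * Real.exp (-(t ^ 2 / 2))) := by
      have e : (t ^ 2 / (2 * Real.sqrt u)) * ph b t * Real.exp (-(t ^ 2 / 2))
          = (t ^ 2 * ph b t) * (Real.exp (-(t ^ 2 / 2)) / (2 * Real.sqrt u)) := by ring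
      rw [e]
      calc (t ^ 2 * ph b t) * (Real.exp (-(t ^ 2 / 2)) / (2 * Real.sqrt u))
          ≤ (3 / 8 * b ^ 2 * t) * (Real.exp (-(t ^ 2 / 2)) / (2 * Real.sqrt u)) := by gcongr
        _ = (3 / 16 * b ^ 2 / Real.sqrt u) * (t * Real.exp (-(t ^ 2 / 2))) := by field_simp; ring
    calc f t ≤ _ := h1
      _ = Real.sqrt u * (ph b t * Real.exp (-(t ^ 2 / 2)))
          + (t ^ 2 / (2 * Real.sqrt u)) * ph b t * Real.exp (-(t ^ 2 / 2)) := by ring
      _ ≤ _ := by linarith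
  set c1 : ℝ := 3 / 16 * b ^ 2 / Real.sqrt u with hc1
  have hc1' : 0 ≤ c1 := by positivity
  have mE : Measurable (fun t : ℝ => ENNReal.ofReal (c1 * (t * Real.exp (-(t ^ 2 / 2))))) := by fun_prop
  -- split
  have hsplit : ∫⁻ t in Ioi (0 : ℝ), ENNReal.ofReal (f t)
      ≤ (∫⁻ t in Ioi (0 : ℝ), ENNReal.ofReal (Real.sqrt u * (ph b t * Real.exp (-(t ^ 2 / 2)))))
        + ∫⁻ t in Ioi (0 : ℝ), ENNReal.ofReal (c1 * (t * Real.exp (-(t ^ 2 / 2)))) := by
    rw [← lintegral_add_right _ mE]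
    refine setLIntegral_mono' measurableSet_Ioi fun t ht => ?_
    have ht0 : 0 < t := ht
    have := ph_nonneg hb ht0.le
    rw [← ENNReal.ofReal_add (by positivity) (by positivity)]
    exact ENNReal.ofReal_le_ofReal (p0 t ht)
  have i3 : ∫⁻ t in Ioi (0 : ℝ), ENNReal.ofReal (c1 * (t * Real.exp (-(t ^ 2 / 2)))) = ENNReal.ofReal c1 := by
    have : ∀ t : ℝ, ENNReal.ofReal (c1 * (t * Real.exp (-(t ^ 2 / 2))))
        = ENNReal.ofReal c1 * ENNReal.ofReal (t * Real.exp (-(t ^ 2 / 2))) := fun t => ENNReal.ofReal_mul hc1'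
    simp_rw [this]
    rw [lintegral_const_mul' _ _ ENNReal.ofReal_ne_top, L3, mul_one]
  have i1 : ∫⁻ t in Ioi (0 : ℝ), ENNReal.ofReal (Real.sqrt u * (ph b t * Real.exp (-(t ^ 2 / 2))))
      ≤ ENNReal.ofReal (Real.sqrt u * (A b (1 / 2) - A b 0 + 3 / 8 * b ^ 2 * (Real.exp (-(1 / 8)) * Real.log 3))) := by
    have hAnn : 0 ≤ A b (1 / 2) - A b 0 := by
      have h1 : ∫ t in (0 : ℝ)..(1 / 2), ph b t = A b (1 / 2) - A b 0 := by
        apply intervalIntegral.integral_eq_sub_of_hasDerivAt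
        · intro t ht
          rw [uIcc_of_le (by norm_num)] at ht
          exact hasDerivAt_A hb0 ht.1
        · exact (cont_ph b).intervalIntegrable _ _
      rw [← h1]
      apply intervalIntegral.integral_nonneg (by norm_num)
      intro t ht
      exact ph_nonneg hb ht.1
    have hl3 : 0 ≤ Real.log 3 := Real.log_nonneg (by norm_num)
    have hun : Ioi (0 : ℝ) = Ioc 0 (1 / 2) ∪ Ioi (1 / 2) := by
      rw [Ioc_union_Ioi_eq_Ioi (by norm_num)]
    rw [hun, lintegral_union measurableSet_Ioi (by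
      rw [Set.disjoint_left]; intro x hx hx'; exact absurd hx.2 (not_le.mpr hx'))]
    have j1 : ∫⁻ t in Ioc (0 : ℝ) (1 / 2), ENNReal.ofReal (Real.sqrt u * (ph b t * Real.exp (-(t ^ 2 / 2))))
        ≤ ENNReal.ofReal (Real.sqrt u * (A b (1 / 2) - A b 0)) := by
      rw [ENNReal.ofReal_mul hsu.le, ← L1 hb0, ← lintegral_const_mul' _ _ ENNReal.ofReal_ne_top]
      refine setLIntegral_mono' measurableSet_Ioc fun t ht => ?_
      rw [← ENNReal.ofReal_mul hsu.le]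
      apply ENNReal.ofReal_le_ofReal
      have h1 := ph_nonneg hb ht.1.le
      have h2 : Real.exp (-(t ^ 2 / 2)) ≤ 1 := Real.exp_le_one_iff.mpr (by nlinarith [sq_nonneg t])
      have h3 : ph b t * Real.exp (-(t ^ 2 / 2)) ≤ ph b t * 1 := by gcongr
      rw [mul_one] at h3
      gcongr
    have j2 : ∫⁻ t in Ioi (1 / 2 : ℝ), ENNReal.ofReal (Real.sqrt u * (ph b t * Real.exp (-(t ^ 2 / 2))))
        ≤ ENNReal.ofReal (Real.sqrt u * (3 / 8 * b ^ 2 * (Real.exp (-(1 / 8)) * Real.log 3))) := by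
      have k : ∫⁻ t in Ioi (1 / 2 : ℝ), ENNReal.ofReal (Real.sqrt u * (ph b t * Real.exp (-(t ^ 2 / 2))))
          ≤ ∫⁻ t in Ioi (1 / 2 : ℝ), ENNReal.ofReal (Real.sqrt u * (3 / 8 * b ^ 2)) *
            ENNReal.ofReal (Real.exp (-(t ^ 2 / 2)) / t) := by
        refine setLIntegral_mono' measurableSet_Ioi fun t ht => ?_
        have ht0 : 0 < t := lt_trans (by norm_num) ht
        rw [← ENNReal.ofReal_mul (by positivity)]
        apply ENNReal.ofReal_le_ofReal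
        have h1 := ph_le hb ht0
        calc Real.sqrt u * (ph b t * Real.exp (-(t ^ 2 / 2)))
            ≤ Real.sqrt u * ((3 / 8 * b ^ 2 / t) * Real.exp (-(t ^ 2 / 2))) := by gcongr
          _ = Real.sqrt u * (3 / 8 * b ^ 2) * (Real.exp (-(t ^ 2 / 2)) / t) := by ring
      refine k.trans ?_
      rw [lintegral_const_mul' _ _ ENNReal.ofReal_ne_top]
      rw [← mul_assoc (Real.sqrt u) (3 / 8 * b ^ 2) (Real.exp (-(1 / 8)) * Real.log 3),
        ENNReal.ofReal_mul (p := Real.sqrt u * (3 / 8 * b ^ 2)) (by positivity)]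
      exact mul_le_mul_right L2 _
    refine (add_le_add j1 j2).trans ?_
    rw [← ENNReal.ofReal_add (by positivity) (by positivity)]
    apply ENNReal.ofReal_le_ofReal
    apply le_of_eq; ring
  have hfin : ∫⁻ t in Ioi (0 : ℝ), ENNReal.ofReal (f t)
      ≤ ENNReal.ofReal (Real.sqrt u * (203 / 200 * b ^ 2 + 9 / 800 * b) + c1) := by
    refine hsplit.trans ?_
    rw [i3, ENNReal.ofReal_add (by positivity) hc1']
    refine add_le_add (i1.trans ?_) le_rfl
    apply ENNReal.ofReal_le_ofReal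
    exact mul_le_mul_of_nonneg_left (num hb0) hsu.le
  calc 2 * ∫⁻ t in Ioi (0 : ℝ), ENNReal.ofReal (f t)
      ≤ 2 * ENNReal.ofReal (Real.sqrt u * (203 / 200 * b ^ 2 + 9 / 800 * b) + c1) := by gcongr
    _ = ENNReal.ofReal (2 * (Real.sqrt u * (203 / 200 * b ^ 2 + 9 / 800 * b) + c1)) := by
        rw [ENNReal.ofReal_mul (by norm_num)]; norm_num
    _ ≤ _ := by
        apply ENNReal.ofReal_le_ofReal
        apply le_of_eq
        rw [hc1]
        ring

end Pool.Agent.W701.N4
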